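import Pool.Agent.H98.BU.G25
import Pool.Agent.H98.BU.G28
import Pool.Agent.H98.BU.G30
import Pool.Agent.H98.BU.G34

/-!
# Blow-up for `u_t + u^k u_x + u_xxx - u_xx = 0`, `k ≥ 4`
-/

namespace Pool.Agent.Results.MP_95be7d_an.BlowUp

open H98KB

/-- For every integer `k ≥ 4` there is `φ ∈ H¹(ℝ)` such that no `u ∈ C([0,∞); H¹(ℝ))` solves
`u_t + u^k u_x + u_xxx - u_xx = 0`, `u(0) = φ`. -/
theorem result : ∀ k : ℕ, 4 ≤ k → ∃ φ p₀ : ℝ → ℝ, IsH1 φ p₀ ∧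
    ¬ ∃ u p : ℝ → ℝ → ℝ, IsGlobalSol k φ u p := by
  intro k hk
  rcases hk.lt_or_eq with h | h
  · exact H72KB.blowup_of H37KB.thmA thmG thmN k h
  · subst h
    exact H98KC.blow4

end Pool.Agent.Results.MP_95be7d_an.BlowUp
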